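import Mathlib
import Pool.Agent.VM.Stmts

/-!
# AVT, AVB: means of periodic functions under translations and injective additive maps
-/

set_option autoImplicit false

namespace Pool.Agent.VM.H14

open Pool.Agent.VM

/-- a periodic function depends only on the residues -/
theorem per_congr {q l : ℕ} {Φ : (Fin l → ℤ) → ℝ} (h : Per q l Φ) {ζ ζ' : Fin l → ℤ}
    (he : ∀ j, (ζ j : ZMod q) = (ζ' j : ZMod q)) : Φ ζ = Φ ζ' := by
  have h1 : ∀ j, ∃ v : ℤ, ζ' j = ζ j + (q : ℤ) * v := by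
    intro j
    have h2 := (ZMod.intCast_eq_intCast_iff_dvd_sub (ζ j) (ζ' j) q).1 (he j)
    obtain ⟨v, hv⟩ := h2
    exact ⟨v, by linarith⟩
  choose v hv using h1
  have h3 : ζ' = fun j => ζ j + (q : ℤ) * v j := funext hv
  rw [h3]
  exact (h ζ v).symm

/-- the mean as a sum over `(ℤ / q) ^ l` -/
theorem av_eq {q l : ℕ} (hq : 0 < q) (Φ : (Fin l → ℤ) → ℝ) :
    haveI : NeZero q := ⟨hq.ne'⟩
    Av q l Φ = (∑ z : Fin l → ZMod q, Φ (fun j => ((z j).val : ℤ))) / (q : ℝ) ^ l := by
  haveI : NeZero q := ⟨hq.ne'⟩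
  unfold Av
  congr 1
  cases q with
  | zero => exact absurd hq (lt_irrefl 0)
  | succ n => rfl

theorem avt : AvtStmt := by
  intro q l Φ hq hper v
  haveI : NeZero q := ⟨hq.ne'⟩
  rw [av_eq hq, av_eq hq]
  congr 1
  have h1 : ∀ z : Fin l → ZMod q, Φ (fun j => ((z j).val : ℤ) + v j) =
      (fun w : Fin l → ZMod q => Φ (fun j => ((w j).val : ℤ)))
        ((Equiv.addRight (fun j => ((v j : ℤ) : ZMod q))) z) := by
    intro z
    refine per_congr hper fun j => ?_
    simp
  rw [Finset.sum_congr rfl fun z _ => h1 z]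
  exact Equiv.sum_comp (Equiv.addRight (fun j => ((v j : ℤ) : ZMod q)))
    (fun w : Fin l → ZMod q => Φ (fun j => ((w j).val : ℤ)))

theorem avb : AvbStmt := by
  intro q l Φ L hq hper hinj
  haveI : NeZero q := ⟨hq.ne'⟩
  rw [av_eq hq, av_eq hq]
  congr 1
  let Lb : (Fin l → ZMod q) → (Fin l → ZMod q) := fun z i =>
    ((L (fun j => ((z j).val : ℤ)) i : ℤ) : ZMod q)
  have hb : Function.Bijective Lb := by
    refine Finite.injective_iff_bijective.1 ?_
    intro z z' hz
    have h1 : ∀ i, (q : ℤ) ∣ L ((fun j => ((z j).val : ℤ)) - (fun j => ((z' j).val : ℤ))) i := by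
      intro i
      have h2 : ((L (fun j => ((z j).val : ℤ)) i : ℤ) : ZMod q) =
          ((L (fun j => ((z' j).val : ℤ)) i : ℤ) : ZMod q) := congrFun hz i
      rw [map_sub]
      have h3 := (ZMod.intCast_eq_intCast_iff_dvd_sub _ _ q).1 h2.symm
      exact h3
    have h4 := hinj _ h1
    funext j
    have h5 := h4 j
    have h6 : (((z j).val : ℤ) : ZMod q) = (((z' j).val : ℤ) : ZMod q) := by
      refine ((ZMod.intCast_eq_intCast_iff_dvd_sub _ _ q).2 ?_).symm
      exact h5
    simpa using h6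
  have h1 : ∀ z : Fin l → ZMod q, Φ (L (fun j => ((z j).val : ℤ))) =
      (fun w : Fin l → ZMod q => Φ (fun j => ((w j).val : ℤ))) (Lb z) := by
    intro z
    refine per_congr hper fun j => ?_
    simp [Lb]
  rw [Finset.sum_congr rfl fun z _ => h1 z]
  exact hb.sum_comp (fun w : Fin l → ZMod q => Φ (fun j => ((w j).val : ℤ)))

end Pool.Agent.VM.H14
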